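import Mathlib
import Pool.Agent.Helper13K9.CS.Seq2

/-!
# MP_c2d7b4_nt: Hoffman words with a common last part

Let `U` be a finite set of words with letters at least two (for instance Hoffman words, the empty word is allowed). There
are `κ > 0` and `M`, depending only on `U`, with the following properties.

1. For all integers `c_u`, `u ∈ U`, not all zero, there is a sign `ε = ± 1`, depending only on `c`, such that for every
word `s = (a, t)` of positive integers (`a ≥ 2` if the empty word belongs to `U`) whose length is at least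
`max |c_u| / κ`: `ε ∑ c_u ζ(u s) ≥ κ ζ(a + M, t) > 0`. Here the letters of `s` belong to the smallest summation variables.
So the numbers `ζ(u s)`, `u ∈ U`, satisfy no nontrivial relation with integer coefficients of absolute value at most
`κ · length s`, whatever `s` is; and since the sign does not depend on `s`, there is also no relation
`∑_s b_s ∑_u c_u ζ(u s) = 0` with nonnegative `b_s`, not all zero, over words `s` of length at least `max |c_u| / κ`.

2. Let `L` be given and let `s_0, s_1, ...` be words with letters in `[2, L]` (`L = 3`: Hoffman words) whose lengths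
satisfy `length s_(j+1) ≥ (L + 1) length s_j` and `length s_0 ≥ r0(U, L)`. Then the numbers `ζ(u s_j)`, `u ∈ U`, `j < n`,
satisfy no nontrivial relation with integer coefficients `|c_(j,u)| ≤ κ · length s_j`.

Hoffman's conjecture says that for words in `2`, `3` there is no nontrivial relation at all.

Proof. `ζ(u s) = ∑_n w_s(n) T_u(n)` with nonnegative weights `w_s(n)`, which vanish for `n < length s`, and the tails
`T_u(n)` of the series of `u`. The tails have asymptotic expansions in powers of `1 / n` with rational coefficients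
(`expl`), and they are linearly independent modulo rapidly decreasing sequences (`indl`, from the independence of the
nested sums over a field with a difference operator, starting library). So finitely many coefficients of the expansions
decide, they have a common denominator, and for `n ≥ max |c_u| / κ` the first nonzero coefficient of the combination gives
the sign of `∑ c_u T_u(n)`.
-/

set_option autoImplicit false

namespace Pool.Agent.Results.MP_c2d7b4_nt.CommonSuffix

open Pool.Agent.Helper13K9.CS

/-- the multiple zeta value of the list `l`, the first entry belongs to the largest summation variable (the empty list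
gives `1`) -/
noncomputable def mzv (l : List ℕ) : ℝ :=
  ∑' m : {m : Fin l.length → ℕ // StrictAnti m ∧ ∀ i, 0 < m i}, ∏ i, ((m.1 i : ℝ) ^ (l.get i))⁻¹

lemma mzv_eq {l : List ℕ} (hl : Pool.Agent.H447R2.MZ.Adm l) : mzv l = Pool.Agent.H447R2.MZ.val l := by
  have h1 := Pool.Agent.H447R2.MZ.hasSum_val l.length l.get (by rw [List.ofFn_get]; exact hl)
  rw [List.ofFn_get] at h1
  exact h1.tsum_eq

lemma nw_sub {u : List ℕ} (hu : ∀ x ∈ u, 2 ≤ x) : nw (u.map (· - 2)) = u := by
  unfold nw
  rw [List.map_map]
  conv_rhs => rw [← List.map_id u]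
  refine List.map_congr_left fun x hx => ?_
  have := hu x hx
  simp only [Function.comp_apply, id]
  omega

lemma inj {U : Finset (List ℕ)} (hU : ∀ u ∈ U, ∀ x ∈ u, 2 ≤ x) :
    Set.InjOn (fun u : List ℕ => u.map (· - 2)) U := by
  intro u hu v hv h
  rw [← nw_sub (hU u hu), ← nw_sub (hU v hv)]
  exact congrArg nw h

lemma adm {u : List ℕ} (hu : ∀ x ∈ u, 2 ≤ x) {a : ℕ} {t : List ℕ} (ha : 1 ≤ a) (h2 : u = [] → 2 ≤ a)
    (ht : ∀ x ∈ t, 1 ≤ x) : Pool.Agent.H447R2.MZ.Adm (u ++ a :: t) := by
  refine ⟨fun x hx => ?_, fun x t' h => ?_⟩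
  · rcases List.mem_append.1 hx with h | h
    · have := hu x h
      omega
    · rcases List.mem_cons.1 h with rfl | h
      · exact ha
      · exact ht x h
  · cases u with
    | nil =>
      rw [List.nil_append, List.cons.injEq] at h
      have := h2 rfl
      omega
    | cons b v =>
      rw [List.cons_append, List.cons.injEq] at h
      have := hu b List.mem_cons_self
      omega

/-- **Theorem.** For every finite set `U` of words with letters at least two there are `κ > 0` and `M` such that:
1. for all integers `c_u` (`u ∈ U`), not all zero, there is a sign `ε` such that `ε ∑ c_u ζ(u s) ≥ κ ζ(a + M, t) > 0` for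
all words `s = (a, t)` of positive integers (`a ≥ 2` if the empty word is in `U`) with `|c_u| ≤ κ · length s`;
2. for every `L` there is `r0` such that for all words `s_0, s_1, ...` with letters in `[2, L]`, `length s_0 ≥ r0` and
`length s_(j+1) ≥ (L + 1) length s_j`, the numbers `ζ(u s_j)`, `u ∈ U`, `j < n`, satisfy no nontrivial relation with integer
coefficients `|c_(j,u)| ≤ κ · length s_j`. -/
theorem result (U : Finset (List ℕ)) (hU : ∀ u ∈ U, ∀ x ∈ u, 2 ≤ x) :
    ∃ κ : ℝ, 0 < κ ∧ ∃ M : ℕ,
      (∀ c : List ℕ → ℤ, (∃ u ∈ U, c u ≠ 0) → ∃ ε : ℝ, (ε = 1 ∨ ε = -1) ∧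
        ∀ (a : ℕ) (t : List ℕ), 1 ≤ a → ([] ∈ U → 2 ≤ a) → (∀ x ∈ t, 1 ≤ x) →
          (∀ u ∈ U, |(c u : ℝ)| ≤ κ * (a :: t).length) →
          0 < mzv ((a + M) :: t) ∧
            κ * mzv ((a + M) :: t) ≤ ε * ∑ u ∈ U, (c u : ℝ) * mzv (u ++ a :: t)) ∧
      (∀ L : ℕ, ∃ r0 : ℕ, ∀ s : ℕ → List ℕ, (∀ j, ∀ x ∈ s j, 2 ≤ x ∧ x ≤ L) → r0 ≤ (s 0).length →
        (∀ j, (L + 1) * (s j).length ≤ (s (j + 1)).length) → ∀ (n : ℕ) (c : ℕ → List ℕ → ℤ),
        (∀ j < n, ∀ u ∈ U, |(c j u : ℝ)| ≤ κ * (s j).length) →
        ∑ j ∈ Finset.range n, ∑ u ∈ U, (c j u : ℝ) * mzv (u ++ s j) = 0 →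
        ∀ j < n, ∀ u ∈ U, c j u = 0) := by
  classical
  obtain ⟨κ, M, hκ, hM, h⟩ := one (U.image fun u : List ℕ => u.map (· - 2))
  refine ⟨κ, hκ, M, fun c hc => ?_, fun L => ?_⟩
  · obtain ⟨u0, hu0, hne⟩ := hc
    obtain ⟨ε, hε, h1⟩ := h (fun w => c (nw w)) ⟨u0.map (· - 2), Finset.mem_image_of_mem _ hu0, by
      show c (nw (u0.map (· - 2))) ≠ 0
      rw [nw_sub (hU u0 hu0)]
      exact hne⟩
    refine ⟨ε, hε, fun a t ha h2 ht hb => ?_⟩
    have hadm2 : Pool.Agent.H447R2.MZ.Adm ((a + M) :: t) := adm_cons (by omega) ht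
    rw [mzv_eq hadm2]
    refine ⟨val_pos hadm2, ?_⟩
    have h3 := h1 a t ha ht ?_ ?_
    · refine h3.trans (le_of_eq ?_)
      rw [Finset.sum_image (inj hU)]
      congr 1
      refine Finset.sum_congr rfl fun u hu => ?_
      rw [nw_sub (hU u hu), mzv_eq (adm (hU u hu) ha (fun h0 => h2 (h0 ▸ hu)) ht)]
    · intro w hw
      obtain ⟨u, hu, rfl⟩ := Finset.mem_image.1 hw
      rw [nw_sub (hU u hu)]
      exact adm (hU u hu) ha (fun h0 => h2 (h0 ▸ hu)) ht
    · intro w hw
      obtain ⟨u, hu, rfl⟩ := Finset.mem_image.1 hw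
      simp only [nw_sub (hU u hu)]
      have h4 := hb u hu
      rw [List.length_cons] at h4
      push_cast at h4
      exact h4
  · obtain ⟨r0, hr0⟩ := seq (U.image fun u : List ℕ => u.map (· - 2)) κ M hκ h L
    refine ⟨r0, fun s hs hs0 hgrow n c hc hsum => ?_⟩
    have h1 := hr0 s hs hs0 hgrow n (fun j w => c j (nw w)) (fun j hj w hw => by
      obtain ⟨u, hu, rfl⟩ := Finset.mem_image.1 hw
      simp only [nw_sub (hU u hu)]
      exact hc j hj u hu) (by
      rw [← hsum]
      refine Finset.sum_congr rfl fun j _ => ?_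
      rw [Finset.sum_image (inj hU)]
      refine Finset.sum_congr rfl fun u hu => ?_
      rw [nw_sub (hU u hu), mzv_eq (adm_of_two ?_)]
      intro x hx
      rcases List.mem_append.1 hx with h | h
      · exact hU u hu x h
      · exact (hs j x h).1)
    intro j hj u hu
    have h2 := h1 j hj (u.map (· - 2)) (Finset.mem_image_of_mem _ hu)
    simp only [nw_sub (hU u hu)] at h2
    exact h2

end Pool.Agent.Results.MP_c2d7b4_nt.CommonSuffix
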