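import Pool.Agent.Helper17K9.NR.Mzv

/-!
# Near relations between multiple zeta values (in particular between the Hoffman elements)

For a finite family `h` of real numbers whose rational span contains the multiple zeta values of the weights in a
set `W` (by Brown's theorem the Hoffman elements of the weights in `W` are such a family) and for arbitrary further
numbers `t_1, …, t_r` the near relations at the scale `X`, that is the integer relations of height at most `X` whose
value is smaller than `c X^(-κ)`, span a space whose codimension is at least `D(W)`, at every scale and uniformly in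
the `t_l`.  `D(W) = ⌊2N/3⌋ + 1` for `W = {0, …, N}`.

Proof: by contradiction, in the field of the sequences of polynomial size modulo an ultrafilter; near relations are
exact relations there, a transcendence measure of `π` and measures of linear independence for `1, ζ(2), ζ(3)` and
`1, ζ(3), π⁴` say that `π²` is transcendental over the field of the quotients of sequences of integers and that
`1, π², ζ(3)` and `ζ(3), π⁴` are linearly independent over it; the dimension bounds hold over every pair of fields.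
-/

set_option autoImplicit false

namespace Pool.Agent.Results.MP_c2d7b4_nt.NearRelations

/-- the multiple zeta value `ζ(n_0, …, n_{r-1}) = ∑_{k_0 > k_1 > ⋯ > k_{r-1} ≥ 1} ∏ k_i^(-n_i)`; it is `1` for
`r = 0` -/
noncomputable def mzv {r : ℕ} (n : Fin r → ℕ) : ℝ :=
  ∑' k : {k : Fin r → ℕ // StrictAnti k ∧ ∀ i, 1 ≤ k i}, ∏ i, (((k.1 i : ℕ) : ℝ) ^ (n i))⁻¹

/-- all entries are at least `1`, the first one is at least `2` -/
def Admissible {r : ℕ} (n : Fin r → ℕ) : Prop := (∀ i, 1 ≤ n i) ∧ ∀ h : 0 < r, 2 ≤ n ⟨0, h⟩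

/-- the rational span of the numbers `h_j` contains all multiple zeta values whose weight is in `W` -/
def SpansWeights {m : ℕ} (h : Fin m → ℝ) (W : Finset ℕ) : Prop :=
  ∀ (r : ℕ) (n : Fin r → ℕ), Admissible n → ∑ i, n i ∈ W → mzv n ∈ Submodule.span ℚ (Set.range h)

/-- For every `r` there are `c > 0` and `κ` such that for all real `t_1, …, t_r` and all `X ≥ 1` linearly independent
integer vectors of height at most `X` on which the linear form `∑ v_j h_j + ∑ v_l t_l` is smaller than `c X^(-κ)` in
absolute value are at most `m + r - D` many. -/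
def FewNearRelations {m : ℕ} (h : Fin m → ℝ) (D : ℕ) : Prop :=
  ∀ r : ℕ, ∃ c : ℝ, 0 < c ∧ ∃ κ : ℕ, ∀ (t : Fin r → ℝ) (X : ℝ), 1 ≤ X →
    ∀ (s : ℕ) (v : Fin s → (Fin m ⊕ Fin r) → ℤ), LinearIndependent ℤ v → (∀ i j, |(v i j : ℝ)| ≤ X) →
      (∀ i, |∑ j, (v i (Sum.inl j) : ℝ) * h j + ∑ l, (v i (Sum.inr l) : ℝ) * t l| < c / X ^ κ) →
      s + D ≤ m + r

lemma zs_le {m : ℕ} {h : Fin m → ℝ} {W : Finset ℕ} (hW : SpansWeights h W) :
    ∀ n ∈ W, Pool.Agent.H447R2.MZ.Zs n ≤ Submodule.span ℚ (Set.range h) := by
  intro n hn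
  unfold Pool.Agent.H447R2.MZ.Zs
  rw [Submodule.span_le]
  rintro x ⟨t, k, h1, h2, h3, rfl⟩
  exact hW t k ⟨h1, h2⟩ (by rw [h3]; exact hn)

open Pool.Agent.Helper17K9.NR in
/-- **Near relations between multiple zeta values.** Let the rational span of `h_1, …, h_m` contain the multiple zeta
values of the weights in `W`. The near relations span a space of codimension at least `D`, where
(1) `D = min (M + 1 - N, ⌊2M/3⌋ + 1 - ⌈N/3⌉)` for an interval `W = {N, …, M}`, `N = 0` or `N ≥ 2`, `(N, M) ≠ (3, 5)`
(in particular `D = ⌊2M/3⌋ + 1` for `W = {0, …, M}`);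
(2) `D = min (|W|, ⌊2M/3⌋ + 1 - ⌈M/2⌉)` for every finite set `W` of weights `≥ 2` and every `M ∈ W`. -/
theorem result (m : ℕ) (h : Fin m → ℝ) :
    (∀ N M : ℕ, (N = 0 ∨ 2 ≤ N) → N ≤ M → ¬ (N = 3 ∧ M = 5) → SpansWeights h (Finset.Icc N M) →
      FewNearRelations h (min (M + 1 - N) (2 * M / 3 + 1 - (N + 2) / 3))) ∧
    (∀ W : Finset ℕ, (∀ n ∈ W, 2 ≤ n) → ∀ M ∈ W, SpansWeights h W →
      FewNearRelations h (min W.card (2 * M / 3 + 1 - (M + 1) / 2))) := by
  refine ⟨fun N M hN hNM hne hW r => ?_, fun W hW2 M hM hW r => ?_⟩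
  · refine near_general h _ fun σ => le_finrank σ h ?_
    rcases hN with rfl | hN
    · have e1 : Finset.Icc 0 M = Finset.range (M + 1) := by
        ext n
        rw [Finset.mem_Icc, Finset.mem_range]
        omega
      rw [e1] at hW
      refine le_trans ?_ (upto (cont σ h _ (zs_le hW)) (tr σ _ mea_pi) (not_lin σ))
      exact_mod_cast (by omega : min (M + 1 - 0) (2 * M / 3 + 1 - (0 + 2) / 3) ≤ 2 * M / 3 + 1)
    · exact window (cont σ h _ (zs_le hW)) (tr σ _ mea_pi) (not_lin σ) (not_four σ) hN hNM hne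
  · refine near_general h _ fun σ => le_finrank σ h ?_
    exact anyset (cont σ h _ (zs_le hW)) (tr σ _ mea_pi) (not_lin σ) hW2 hM

end Pool.Agent.Results.MP_c2d7b4_nt.NearRelations
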